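import Mathlib
import Pool.Agent.Y16.AF.Defs

/-!
# Green functions on an interval: recursions
-/

set_option autoImplicit false

namespace Pool.Agent.Y839.AF

open Pool.Agent.Y16.AF

noncomputable section

/-! ### A general recursion -/

/-- product of two solutions -/
def gg (A C : ℤ → ℝ) (x y : ℤ) : ℝ := A (min x y) * C (max x y)

theorem gg_rec {A C : ℤ → ℝ} {κ W : ℝ} (hA : ∀ x, A (x + 1) + A (x - 1) = κ * A x)
    (hC : ∀ x, C (x + 1) + C (x - 1) = κ * C x) (hW : ∀ x, A (x + 1) * C x - A x * C (x + 1) = W)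
    (x y : ℤ) : κ * gg A C x y - gg A C (x - 1) y - gg A C (x + 1) y = if x = y then W else 0 := by
  unfold gg
  rcases lt_trichotomy x y with h | h | h
  · rw [if_neg h.ne, min_eq_left h.le, max_eq_right h.le, min_eq_left (by omega : x - 1 ≤ y),
      max_eq_right (by omega : x - 1 ≤ y), min_eq_left (by omega : x + 1 ≤ y),
      max_eq_right (by omega : x + 1 ≤ y)]
    linear_combination (-C y) * hA x
  · subst h
    rw [if_pos rfl, min_self, max_self, min_eq_left (by omega : x - 1 ≤ x),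
      max_eq_right (by omega : x - 1 ≤ x), min_eq_right (by omega : x ≤ x + 1),
      max_eq_left (by omega : x ≤ x + 1)]
    linear_combination (-C x) * hA x + hW x
  · rw [if_neg h.ne', min_eq_right h.le, max_eq_left h.le, min_eq_right (by omega : y ≤ x - 1),
      max_eq_left (by omega : y ≤ x - 1), min_eq_right (by omega : y ≤ x + 1),
      max_eq_left (by omega : y ≤ x + 1)]
    linear_combination (-A y) * hC x

theorem gg_symm (A C : ℤ → ℝ) (x y : ℤ) : gg A C x y = gg A C y x := by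
  unfold gg
  rw [min_comm, max_comm]

/-! ### Dirichlet -/

theorem GD_eq (L : ℕ) (ω : ℝ) (t s : ℕ) : GD L ω t s =
    gg (fun x => Real.sinh (ω * x)) (fun x => Real.sinh (ω * (L - x))) t s /
      (Real.sinh ω * Real.sinh (ω * L)) := by
  unfold GD gg
  push_cast
  rfl

theorem GD_symm (L : ℕ) (ω : ℝ) (t s : ℕ) : GD L ω t s = GD L ω s t := by
  rw [GD_eq, GD_eq, gg_symm]

theorem GD_zero (L : ℕ) (ω : ℝ) (t : ℕ) : GD L ω t 0 = 0 := by
  unfold GD
  simp

theorem GD_last (L : ℕ) (ω : ℝ) {t : ℕ} (ht : t ≤ L) : GD L ω t L = 0 := by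
  unfold GD
  rw [max_eq_right ht]
  simp

theorem GD_rec {L : ℕ} {ω : ℝ} (hω : 0 < ω) (hL : 1 ≤ L) (x y : ℕ) :
    2 * Real.cosh ω * GD L ω (x + 1) y - GD L ω x y - GD L ω (x + 2) y =
      if x + 1 = y then 1 else 0 := by
  have hLR : (0 : ℝ) < L := by exact_mod_cast hL
  have h1 : 0 < Real.sinh ω := Real.sinh_pos_iff.2 hω
  have h2 : 0 < Real.sinh (ω * L) := Real.sinh_pos_iff.2 (by positivity)
  have key := gg_rec (A := fun x => Real.sinh (ω * x)) (C := fun x => Real.sinh (ω * (L - x)))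
    (κ := 2 * Real.cosh ω) (W := Real.sinh ω * Real.sinh (ω * L)) (by
      intro x
      have e1 : ω * ((x + 1 : ℤ) : ℝ) = ω * x + ω := by push_cast; ring
      have e2 : ω * ((x - 1 : ℤ) : ℝ) = ω * x - ω := by push_cast; ring
      rw [e1, e2, Real.sinh_add, Real.sinh_sub]
      ring) (by
      intro x
      have e1 : ω * (L - ((x + 1 : ℤ) : ℝ)) = ω * (L - x) - ω := by push_cast; ring
      have e2 : ω * (L - ((x - 1 : ℤ) : ℝ)) = ω * (L - x) + ω := by push_cast; ring
      rw [e1, e2, Real.sinh_add, Real.sinh_sub]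
      ring) (by
      intro x
      have e1 : ω * ((x + 1 : ℤ) : ℝ) = ω * x + ω := by push_cast; ring
      have e2 : ω * (L - ((x + 1 : ℤ) : ℝ)) = ω * (L - x) - ω := by push_cast; ring
      have e3 : ω * L = ω * x + ω * (L - x) := by ring
      rw [e1, e2, e3, Real.sinh_add, Real.sinh_sub, Real.sinh_add]
      ring) ((x : ℤ) + 1) y
  rw [GD_eq, GD_eq, GD_eq]
  have e1 : ((x : ℤ) + 1) - 1 = x := by ring
  have e2 : ((x : ℤ) + 1) + 1 = ((x + 2 : ℕ) : ℤ) := by push_cast; ring
  have e3 : (x : ℤ) + 1 = ((x + 1 : ℕ) : ℤ) := by push_cast; ring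
  rw [e1, e2, e3] at key
  by_cases h : x + 1 = y
  · rw [if_pos h]
    rw [if_pos (by exact_mod_cast h)] at key
    field_simp
    linarith
  · rw [if_neg h]
    rw [if_neg (by exact_mod_cast h)] at key
    field_simp
    linarith

/-! ### Neumann -/

theorem GN_eq (L : ℕ) (ω : ℝ) (t s : ℕ) : GN L ω t s =
    gg (fun x => Real.cosh (ω * (x + 1 / 2))) (fun x => Real.cosh (ω * (L - 1 / 2 - x))) t s /
      (Real.sinh ω * Real.sinh (ω * L)) := by
  unfold GN gg
  push_cast
  rfl

theorem GN_symm (L : ℕ) (ω : ℝ) (t s : ℕ) : GN L ω t s = GN L ω s t := by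
  rw [GN_eq, GN_eq, gg_symm]

theorem GN_rec {L : ℕ} {ω : ℝ} (hω : 0 < ω) (hL : 1 ≤ L) {x y : ℕ} (hx : x < L) (hy : y < L) :
    (2 * Real.cosh ω - 2 + (if 0 < x then 1 else 0) + (if x + 1 < L then 1 else 0)) * GN L ω x y -
      (if 0 < x then GN L ω (x - 1) y else 0) - (if x + 1 < L then GN L ω (x + 1) y else 0) =
      if x = y then 1 else 0 := by
  have hLR : (0 : ℝ) < L := by exact_mod_cast hL
  have h1 : 0 < Real.sinh ω := Real.sinh_pos_iff.2 hω
  have h2 : 0 < Real.sinh (ω * L) := Real.sinh_pos_iff.2 (by positivity)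
  obtain ⟨A, hA⟩ : ∃ A : ℤ → ℝ, A = fun x : ℤ => Real.cosh (ω * ((x : ℝ) + 1 / 2)) := ⟨_, rfl⟩
  obtain ⟨C, hC⟩ : ∃ C : ℤ → ℝ, C = fun x : ℤ => Real.cosh (ω * (L - 1 / 2 - (x : ℝ))) := ⟨_, rfl⟩
  have key := gg_rec (A := A) (C := C)
    (κ := 2 * Real.cosh ω) (W := Real.sinh ω * Real.sinh (ω * L)) (by
      intro x
      have e1 : ω * (((x + 1 : ℤ) : ℝ) + 1 / 2) = ω * (x + 1 / 2) + ω := by push_cast; ring
      have e2 : ω * (((x - 1 : ℤ) : ℝ) + 1 / 2) = ω * (x + 1 / 2) - ω := by push_cast; ring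
      simp only [hA]
      rw [e1, e2, Real.cosh_add, Real.cosh_sub]
      ring) (by
      intro x
      have e1 : ω * (L - 1 / 2 - ((x + 1 : ℤ) : ℝ)) = ω * (L - 1 / 2 - x) - ω := by
        push_cast; ring
      have e2 : ω * (L - 1 / 2 - ((x - 1 : ℤ) : ℝ)) = ω * (L - 1 / 2 - x) + ω := by
        push_cast; ring
      simp only [hC]
      rw [e1, e2, Real.cosh_add, Real.cosh_sub]
      ring) (by
      intro x
      have e1 : ω * (((x + 1 : ℤ) : ℝ) + 1 / 2) = ω * (x + 1 / 2) + ω := by push_cast; ring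
      have e2 : ω * (L - 1 / 2 - ((x + 1 : ℤ) : ℝ)) = ω * (L - 1 / 2 - x) - ω := by
        push_cast; ring
      have e3 : ω * L = ω * (x + 1 / 2) + ω * (L - 1 / 2 - x) := by ring
      simp only [hA, hC]
      rw [e1, e2, e3, Real.cosh_add, Real.cosh_sub, Real.sinh_add]
      ring) x y
  have hGN : ∀ t s : ℕ, GN L ω t s = gg A C t s / (Real.sinh ω * Real.sinh (ω * L)) := by
    intro t s
    rw [GN_eq, hA, hC]
  -- the neighbours, with the reflection at the ends
  have hl : (if 0 < x then GN L ω (x - 1) y else GN L ω x y) =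
      gg A C ((x : ℤ) - 1) y / (Real.sinh ω * Real.sinh (ω * L)) := by
    split_ifs with h
    · rw [hGN, Nat.cast_sub h, Nat.cast_one]
    · have hx0 : x = 0 := by omega
      subst hx0
      rw [hGN]
      unfold gg
      rw [min_eq_left (by omega), max_eq_right (by omega), min_eq_left (by omega),
        max_eq_right (by omega)]
      have : A ((0 : ℕ) : ℤ) = A (((0 : ℕ) : ℤ) - 1) := by
        simp only [hA]
        have e : ω * ((((0 : ℕ) : ℤ) - 1 : ℤ) + 1 / 2 : ℝ) = -(ω * ((((0 : ℕ) : ℤ) : ℝ) + 1 / 2)) := by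
          push_cast; ring
        rw [e, Real.cosh_neg]
      rw [this]
  have hr : (if x + 1 < L then GN L ω (x + 1) y else GN L ω x y) =
      gg A C ((x : ℤ) + 1) y / (Real.sinh ω * Real.sinh (ω * L)) := by
    split_ifs with h
    · rw [hGN, Nat.cast_add, Nat.cast_one]
    · have hx0 : L = x + 1 := by omega
      rw [hGN]
      unfold gg
      rw [min_eq_right (by omega), max_eq_left (by omega), min_eq_right (by omega),
        max_eq_left (by omega)]
      have : C (x : ℤ) = C ((x : ℤ) + 1) := by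
        simp only [hC]
        have e : ω * (L - 1 / 2 - (((x : ℤ) + 1 : ℤ) : ℝ)) = -(ω * (L - 1 / 2 - ((x : ℤ) : ℝ))) := by
          rw [hx0]
          push_cast; ring
        rw [e, Real.cosh_neg]
      rw [this]
  have hsum : (2 * Real.cosh ω - 2 + (if 0 < x then 1 else 0) + (if x + 1 < L then 1 else 0)) *
      GN L ω x y - (if 0 < x then GN L ω (x - 1) y else 0) -
        (if x + 1 < L then GN L ω (x + 1) y else 0) =
      2 * Real.cosh ω * GN L ω x y - (if 0 < x then GN L ω (x - 1) y else GN L ω x y) -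
        (if x + 1 < L then GN L ω (x + 1) y else GN L ω x y) := by
    split_ifs <;> ring
  rw [hsum, hl, hr, hGN]
  by_cases h : x = y
  · rw [if_pos h]
    rw [if_pos (by exact_mod_cast h)] at key
    field_simp
    linarith
  · rw [if_neg h]
    rw [if_neg (by exact_mod_cast h)] at key
    field_simp
    linarith

end

end Pool.Agent.Y839.AF
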