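import Mathlib

/-!
# Traces of products of matrices of an interval
-/

set_option autoImplicit false

namespace Pool.Agent.Y839.AF

open Matrix Finset

/-! ### Sums with indicators -/

theorem sum_ind (n m : ℕ) (g : ℕ → ℂ) :
    ∑ u : Fin n, (if (u : ℕ) = m then g u else 0) = if m < n then g m else 0 := by
  rw [Fin.sum_univ_eq_sum_range (fun u => if u = m then g u else 0) n, Finset.sum_ite_eq']
  simp only [Finset.mem_range]

/-- the row of a tridiagonal matrix -/
theorem tri_row (n : ℕ) (d g : ℕ → ℂ) (s : Fin n) :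
    ∑ u : Fin n, (if s = u then d u else if (s : ℕ) = u + 1 ∨ (u : ℕ) = s + 1 then -1 else 0) * g u =
      d s * g s - (if 0 < (s : ℕ) then g (s - 1) else 0) - (if (s : ℕ) + 1 < n then g (s + 1) else 0) := by
  have h1 : ∀ u : Fin n,
      (if s = u then d u else if (s : ℕ) = u + 1 ∨ (u : ℕ) = s + 1 then -1 else 0) * g u =
      (if (u : ℕ) = s then d u * g u else 0) -
        (if 0 < (s : ℕ) then (if (u : ℕ) = s - 1 then g u else 0) else 0) -
        (if (u : ℕ) = s + 1 then g u else 0) := by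
    intro u
    by_cases h : s = u
    · subst h
      rw [if_pos rfl, if_pos rfl]
      split_ifs <;> first | omega | ring
    · have h' : (u : ℕ) ≠ s := fun he => h (Fin.ext he.symm)
      rw [if_neg h, if_neg h']
      split_ifs <;> first | omega | ring
  rw [Finset.sum_congr rfl fun u _ => h1 u, Finset.sum_sub_distrib, Finset.sum_sub_distrib,
    sum_ind n s (fun u => d u * g u), sum_ind n (s + 1) g, if_pos s.2]
  congr 2
  split_ifs with h
  · rw [sum_ind n (s - 1) g, if_pos (by omega)]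
  · simp

/-! ### The matrices -/

/-- the matrix of the Green function `g` on `{0, …, n - 1}` -/
def MN (n : ℕ) (g : ℕ → ℕ → ℂ) : Matrix (Fin n) (Fin n) ℂ := Matrix.of fun s t => g s t

/-- the matrix of the Green function `g` on `{1, …, n}` -/
def MD (n : ℕ) (g : ℕ → ℕ → ℂ) : Matrix (Fin n) (Fin n) ℂ :=
  Matrix.of fun s t => g (s + 1) (t + 1)

/-- tridiagonal matrix -/
def KK (n : ℕ) (d : ℕ → ℂ) : Matrix (Fin n) (Fin n) ℂ :=
  Matrix.of fun s t => if s = t then d t
    else if (s : ℕ) = t + 1 ∨ (t : ℕ) = s + 1 then -1 else 0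

/-- upper shift -/
def UM (n : ℕ) : Matrix (Fin n) (Fin n) ℂ := Matrix.of fun s t => if (t : ℕ) = s + 1 then 1 else 0

/-- incidence matrix -/
def EM (L : ℕ) : Matrix (Fin L) (Fin (L - 1)) ℂ :=
  Matrix.of fun s t => if (s : ℕ) = t + 1 ∨ (s : ℕ) = t then 1 else 0

theorem tr_diag (n : ℕ) (g : ℕ → ℕ → ℂ) (a : ℕ → ℂ) :
    trace (MN n g * diagonal fun t : Fin n => a t) = ∑ t ∈ range n, g t t * a t := by
  unfold Matrix.trace
  rw [← Fin.sum_univ_eq_sum_range (fun t => g t t * a t) n]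
  apply Finset.sum_congr rfl
  intro t _
  rw [Matrix.diag_apply, Matrix.mul_diagonal]
  rfl

theorem tr_diag2 (n : ℕ) (g : ℕ → ℕ → ℂ) (a : ℕ → ℂ) :
    trace (MN n g * (diagonal fun t : Fin n => a t) * (MN n g * diagonal fun t : Fin n => a t)) =
      ∑ t ∈ range n, ∑ s ∈ range n, g t s * a s * (g s t * a t) := by
  unfold Matrix.trace
  rw [← Fin.sum_univ_eq_sum_range (fun t => ∑ s ∈ range n, g t s * a s * (g s t * a t)) n]
  apply Finset.sum_congr rfl
  intro t _
  rw [Matrix.diag_apply, Matrix.mul_apply,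
    ← Fin.sum_univ_eq_sum_range (fun s => g t s * a s * (g s t * a t)) n]
  apply Finset.sum_congr rfl
  intro s _
  rw [Matrix.mul_diagonal, Matrix.mul_diagonal]
  rfl

theorem MD_eq (n : ℕ) (g : ℕ → ℕ → ℂ) : MD n g = MN n fun s t => g (s + 1) (t + 1) := rfl

/-- adjacency as a tridiagonal matrix -/
theorem adj_eq (n : ℕ) (c : ℂ) : UM n + (UM n)ᵀ = (diagonal fun _ => c) - KK n fun _ => c := by
  ext s t
  rw [Matrix.add_apply, Matrix.transpose_apply, Matrix.sub_apply, Matrix.diagonal_apply]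
  unfold UM KK
  rw [Matrix.of_apply, Matrix.of_apply, Matrix.of_apply]
  by_cases h : s = t
  · subst h
    rw [if_pos rfl, if_pos rfl, if_neg (by omega)]
    ring
  · rw [if_neg h, if_neg h]
    have h' : (s : ℕ) ≠ t := fun he => h (Fin.ext he)
    by_cases h1 : (t : ℕ) = s + 1
    · rw [if_pos h1, if_neg (by omega), if_pos (Or.inr h1)]
      ring
    · by_cases h2 : (s : ℕ) = t + 1
      · rw [if_neg h1, if_pos h2, if_pos (Or.inl h2)]
        ring
      · rw [if_neg h1, if_neg h2, if_neg (by omega)]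
        ring

theorem tr_adj (n : ℕ) (g : ℕ → ℕ → ℂ) (c : ℂ) (hK : MD n g * (KK n fun _ => c) = 1) :
    trace (MD n g * (UM n + (UM n)ᵀ)) = c * (∑ t ∈ range n, g (t + 1) (t + 1)) - n := by
  rw [adj_eq n c, Matrix.mul_sub, hK, Matrix.trace_sub, Matrix.trace_one, Fintype.card_fin, MD_eq,
    tr_diag n (fun s t => g (s + 1) (t + 1)) (fun _ => c), ← Finset.sum_mul]
  ring

/-! ### Products with the shift -/

section shift
variable {n : ℕ} {g : ℕ → ℕ → ℂ}

theorem mul_U (h0 : ∀ s, g s 0 = 0) (s t : Fin n) : (MD n g * UM n) s t = g (s + 1) t := by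
  rw [Matrix.mul_apply]
  have h1 : ∀ u : Fin n, MD n g s u * UM n u t =
      if 0 < (t : ℕ) then (if (u : ℕ) = t - 1 then g (s + 1) (u + 1) else 0) else 0 := by
    intro u
    unfold MD UM
    rw [Matrix.of_apply, Matrix.of_apply]
    split_ifs <;> first | omega | ring
  rw [Finset.sum_congr rfl fun u _ => h1 u]
  split_ifs with h
  · rw [sum_ind n (t - 1) (fun u => g (s + 1) (u + 1)), if_pos (by omega), Nat.sub_add_cancel h]
  · have : (t : ℕ) = 0 := by omega
    rw [this, h0]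
    simp

theorem mul_Ut (hn : ∀ s ≤ n + 1, g s (n + 1) = 0) (s t : Fin n) :
    (MD n g * (UM n)ᵀ) s t = g (s + 1) (t + 2) := by
  rw [Matrix.mul_apply]
  have h1 : ∀ u : Fin n, MD n g s u * (UM n)ᵀ u t =
      if (u : ℕ) = t + 1 then g (s + 1) (u + 1) else 0 := by
    intro u
    unfold MD UM
    rw [Matrix.transpose_apply, Matrix.of_apply, Matrix.of_apply]
    split_ifs <;> first | omega | ring
  rw [Finset.sum_congr rfl fun u _ => h1 u, sum_ind n (t + 1) (fun u => g (s + 1) (u + 1))]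
  split_ifs with h
  · rfl
  · have : (t : ℕ) + 2 = n + 1 := by omega
    rw [this, hn _ (by omega)]

theorem tr_UUt (h0 : ∀ s, g s 0 = 0) (hn : ∀ s ≤ n + 1, g s (n + 1) = 0)
    (hs : ∀ s t, g s t = g t s) (hn1 : 1 ≤ n) :
    trace (MD n g * UM n * (MD n g * (UM n)ᵀ)) =
      ∑ t ∈ range (n - 1), ∑ s ∈ range (n - 1), g (t + 2) (s + 2) * g (t + 1) (s + 1) := by
  obtain ⟨m, rfl⟩ : ∃ m, n = m + 1 := ⟨n - 1, by omega⟩
  have h1 : trace (MD (m + 1) g * UM (m + 1) * (MD (m + 1) g * (UM (m + 1))ᵀ)) =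
      ∑ s ∈ range (m + 1), ∑ t ∈ range (m + 1), g (s + 1) t * g (t + 1) (s + 2) := by
    unfold Matrix.trace
    rw [← Fin.sum_univ_eq_sum_range
      (fun s => ∑ t ∈ range (m + 1), g (s + 1) t * g (t + 1) (s + 2)) (m + 1)]
    apply Finset.sum_congr rfl
    intro s _
    rw [Matrix.diag_apply, Matrix.mul_apply,
      ← Fin.sum_univ_eq_sum_range (fun t => g (s + 1) t * g (t + 1) (s + 2)) (m + 1)]
    apply Finset.sum_congr rfl
    intro t _
    rw [mul_U h0, mul_Ut hn]
  rw [h1, Nat.add_sub_cancel, Finset.sum_range_succ]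
  have h2 : ∑ t ∈ range (m + 1), g (m + 1) t * g (t + 1) (m + 2) = 0 := by
    apply Finset.sum_eq_zero
    intro t ht
    rw [Finset.mem_range] at ht
    rw [hn (t + 1) (by omega), mul_zero]
  rw [h2, add_zero]
  apply Finset.sum_congr rfl
  intro s _
  rw [Finset.sum_range_succ', h0, zero_mul, add_zero]
  apply Finset.sum_congr rfl
  intro t _
  rw [hs (t + 1 + 1) (s + 2)]
  ring

theorem tr_UU (h0 : ∀ s, g s 0 = 0) (hs : ∀ s t, g s t = g t s) (hn1 : 1 ≤ n) :
    trace (MD n g * UM n * (MD n g * UM n)) =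
      ∑ t ∈ range (n - 1), ∑ s ∈ range (n - 1), g (t + 1) (s + 2) * g (t + 2) (s + 1) := by
  obtain ⟨m, rfl⟩ : ∃ m, n = m + 1 := ⟨n - 1, by omega⟩
  have h1 : trace (MD (m + 1) g * UM (m + 1) * (MD (m + 1) g * UM (m + 1))) =
      ∑ s ∈ range (m + 1), ∑ t ∈ range (m + 1), g (s + 1) t * g (t + 1) s := by
    unfold Matrix.trace
    rw [← Fin.sum_univ_eq_sum_range
      (fun s => ∑ t ∈ range (m + 1), g (s + 1) t * g (t + 1) s) (m + 1)]
    apply Finset.sum_congr rfl
    intro s _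
    rw [Matrix.diag_apply, Matrix.mul_apply,
      ← Fin.sum_univ_eq_sum_range (fun t => g (s + 1) t * g (t + 1) s) (m + 1)]
    apply Finset.sum_congr rfl
    intro t _
    rw [mul_U h0, mul_U h0]
  rw [h1, Nat.add_sub_cancel, Finset.sum_range_succ']
  have h2 : ∑ t ∈ range (m + 1), g (0 + 1) t * g (t + 1) 0 = 0 := by
    apply Finset.sum_eq_zero
    intro t _
    rw [h0, mul_zero]
  rw [h2, add_zero]
  apply Finset.sum_congr rfl
  intro s _
  rw [Finset.sum_range_succ', h0, zero_mul, add_zero]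
  apply Finset.sum_congr rfl
  intro t _
  rw [hs (t + 1 + 1) (s + 1)]
  ring

theorem MD_tr (hs : ∀ s t, g s t = g t s) : (MD n g)ᵀ = MD n g := by
  ext s t
  rw [Matrix.transpose_apply]
  exact hs _ _

/-- the square of the Dirichlet block -/
theorem tr_DD (h0 : ∀ s, g s 0 = 0) (hn : ∀ s ≤ n + 1, g s (n + 1) = 0)
    (hs : ∀ s t, g s t = g t s) (hn1 : 1 ≤ n) (d : ℕ → ℂ) (κ : ℂ) :
    trace (MD n g * ((diagonal fun t : Fin n => d t) + κ • (UM n - (UM n)ᵀ)) *
      (MD n g * ((diagonal fun t : Fin n => d t) + κ • (UM n - (UM n)ᵀ)))) =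
    ∑ t ∈ range n, ∑ s ∈ range n, g (t + 1) (s + 1) * d s * (g (s + 1) (t + 1) * d t) -
      2 * κ ^ 2 * ∑ t ∈ range (n - 1), ∑ s ∈ range (n - 1),
        (g (t + 2) (s + 2) * g (t + 1) (s + 1) - g (t + 1) (s + 2) * g (t + 2) (s + 1)) := by
  obtain ⟨M, hM⟩ : ∃ M, M = MD n g := ⟨_, rfl⟩
  obtain ⟨D, hD⟩ : ∃ D : Matrix (Fin n) (Fin n) ℂ, D = diagonal fun t : Fin n => d t := ⟨_, rfl⟩
  obtain ⟨U, hU⟩ : ∃ U, U = UM n := ⟨_, rfl⟩
  have hMt : Mᵀ = M := by rw [hM]; exact MD_tr hs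
  have hDt : Dᵀ = D := by rw [hD]; exact Matrix.diagonal_transpose _
  have e1 : trace (M * D * (M * (U - Uᵀ))) = 0 := by
    have h1 : trace (M * D * (M * U)) = trace (M * D * (M * Uᵀ)) := by
      rw [← Matrix.trace_transpose (M * D * (M * U))]
      rw [Matrix.transpose_mul, Matrix.transpose_mul, Matrix.transpose_mul, hMt, hDt]
      rw [Matrix.mul_assoc, Matrix.trace_mul_comm]
      congr 1
      simp only [Matrix.mul_assoc]
    rw [Matrix.mul_sub, Matrix.mul_sub, Matrix.trace_sub, h1, sub_self]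
  have e2 : trace (M * (U - Uᵀ) * (M * D)) = 0 := by
    rw [Matrix.trace_mul_comm]
    exact e1
  have e3 : trace (M * (U - Uᵀ) * (M * (U - Uᵀ))) =
      2 * (trace (M * U * (M * U)) - trace (M * U * (M * Uᵀ))) := by
    have h1 : trace (M * Uᵀ * (M * Uᵀ)) = trace (M * U * (M * U)) := by
      rw [← Matrix.trace_transpose (M * U * (M * U))]
      rw [Matrix.transpose_mul, Matrix.transpose_mul, hMt]
      rw [Matrix.mul_assoc Uᵀ, Matrix.trace_mul_comm Uᵀ]
      congr 1
      simp only [Matrix.mul_assoc]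
    have h2 : trace (M * Uᵀ * (M * U)) = trace (M * U * (M * Uᵀ)) := Matrix.trace_mul_comm _ _
    rw [Matrix.mul_sub, Matrix.mul_sub, Matrix.sub_mul, Matrix.sub_mul, Matrix.trace_sub,
      Matrix.trace_sub, Matrix.trace_sub, h1, h2]
    ring
  have e4 := tr_UUt h0 hn hs hn1
  have e5 := tr_UU h0 hs hn1
  have e6 := tr_diag2 n (fun s t => g (s + 1) (t + 1)) d
  rw [← MD_eq] at e6
  rw [← hM, ← hD] at e6
  rw [← hM, ← hU] at e4 e5
  rw [← hM, ← hD, ← hU]
  have e7 : trace (M * (D + κ • (U - Uᵀ)) * (M * (D + κ • (U - Uᵀ)))) =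
      trace (M * D * (M * D)) + κ * trace (M * D * (M * (U - Uᵀ))) +
        κ * trace (M * (U - Uᵀ) * (M * D)) + κ ^ 2 * trace (M * (U - Uᵀ) * (M * (U - Uᵀ))) := by
    rw [Matrix.mul_add, Matrix.mul_add, Matrix.add_mul, Matrix.add_mul, Matrix.mul_smul,
      Matrix.mul_smul, Matrix.smul_mul, Matrix.smul_mul, Matrix.mul_smul, Matrix.trace_add,
      Matrix.trace_add, Matrix.trace_add, Matrix.trace_smul, Matrix.trace_smul, Matrix.trace_smul,
      Matrix.trace_smul]
    simp only [smul_eq_mul]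
    ring
  rw [e7, e1, e2, e3, e4, e5, e6]
  simp only [Finset.sum_sub_distrib]
  ring

end shift

/-! ### Products with the incidence matrix -/

theorem sum_E {L : ℕ} (hL : 2 ≤ L) {f : ℕ → ℂ} (h0 : f 0 = 0) (hf : f L = 0) (s : Fin L) :
    ∑ t : Fin (L - 1), f (t + 1) * (if (s : ℕ) = t + 1 ∨ (s : ℕ) = t then 1 else 0) =
      f s + f (s + 1) := by
  have h1 : ∀ t : Fin (L - 1), f (t + 1) * (if (s : ℕ) = t + 1 ∨ (s : ℕ) = t then 1 else 0) =
      (if 0 < (s : ℕ) then (if (t : ℕ) = s - 1 then f (t + 1) else 0) else 0) +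
        (if (t : ℕ) = s then f (t + 1) else 0) := by
    intro t
    split_ifs <;> first | omega | ring
  rw [Finset.sum_congr rfl fun t _ => h1 t, Finset.sum_add_distrib,
    sum_ind (L - 1) s (fun t => f (t + 1))]
  congr 1
  · split_ifs with h
    · rw [sum_ind (L - 1) (s - 1) (fun t => f (t + 1)), if_pos (by omega), Nat.sub_add_cancel h]
    · have : (s : ℕ) = 0 := by omega
      rw [this, h0]
      simp
  · split_ifs with h
    · rfl
    · have : (s : ℕ) + 1 = L := by omega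
      rw [this, hf]

theorem tr_E {L : ℕ} (hL : 2 ≤ L) {gN gD : ℕ → ℕ → ℂ} (h0 : ∀ s, gD s 0 = 0)
    (hn : ∀ s ≤ L, gD s L = 0) (hs : ∀ s t, gD s t = gD t s) :
    trace (MN L gN * EM L * (MD (L - 1) gD * (EM L)ᵀ)) =
      ∑ t ∈ range L, ∑ s ∈ range L,
        gN t s * (gD t s + gD (t + 1) s + gD t (s + 1) + gD (t + 1) (s + 1)) := by
  have h1 : ∀ (s : Fin L) (t : Fin (L - 1)),
      (EM L * MD (L - 1) gD) s t = gD s (t + 1) + gD (s + 1) (t + 1) := by
    intro s t
    rw [Matrix.mul_apply]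
    have h2 := sum_E hL (f := fun x => gD x (t + 1)) (by rw [hs]; exact h0 _)
      (by rw [hs]; exact hn _ (by omega)) s
    rw [← h2]
    apply Finset.sum_congr rfl
    intro u _
    unfold EM MD
    rw [Matrix.of_apply, Matrix.of_apply, mul_comm]
  have h2 : ∀ s u : Fin L, (EM L * MD (L - 1) gD * (EM L)ᵀ) s u =
      gD s u + gD (s + 1) u + gD s (u + 1) + gD (s + 1) (u + 1) := by
    intro s u
    rw [Matrix.mul_apply]
    have h3 := sum_E hL (f := fun x => gD s x + gD (s + 1) x) (by rw [h0, h0, add_zero])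
      (by rw [hn _ (by omega), hn _ (by omega), add_zero]) u
    have h4 : gD s u + gD (s + 1) u + gD s (u + 1) + gD (s + 1) (u + 1) =
        (gD s u + gD (s + 1) u) + (gD s (u + 1) + gD (s + 1) (u + 1)) := by ring
    rw [h4, ← h3]
    apply Finset.sum_congr rfl
    intro t _
    rw [h1, Matrix.transpose_apply]
    rfl
  have h3 : MN L gN * EM L * (MD (L - 1) gD * (EM L)ᵀ) =
      MN L gN * (EM L * MD (L - 1) gD * (EM L)ᵀ) := by
    simp only [Matrix.mul_assoc]
  rw [h3]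
  unfold Matrix.trace
  rw [← Fin.sum_univ_eq_sum_range (fun t => ∑ s ∈ range L,
        gN t s * (gD t s + gD (t + 1) s + gD t (s + 1) + gD (t + 1) (s + 1))) L]
  apply Finset.sum_congr rfl
  intro t _
  rw [Matrix.diag_apply, Matrix.mul_apply, ← Fin.sum_univ_eq_sum_range (fun s =>
        gN t s * (gD t s + gD (t + 1) s + gD t (s + 1) + gD (t + 1) (s + 1))) L]
  apply Finset.sum_congr rfl
  intro s _
  rw [h2, hs s t, hs (s + 1) t, hs s (t + 1), hs (s + 1) (t + 1)]
  have : MN L gN t s = gN t s := rfl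
  rw [this]
  ring

end Pool.Agent.Y839.AF
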