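import Mathlib
import Pool.Agent.Y16.AF.Defs
import Pool.Agent.Y839.AF.BlkG
import Pool.Agent.Y839.AF.BlkM

/-!
# The matrix of a mode: entries and derivatives
-/

set_option autoImplicit false

namespace Pool.Agent.Y839.AF

open Matrix Finset
open Pool.Agent.Y16.AF

noncomputable section

/-- exponential of an affine function -/
def E (a c ε : ℝ) : ℂ := Complex.exp (Complex.I * ((a + c * ε : ℝ) : ℂ))

theorem E_zero (a c : ℝ) : E a c 0 = Complex.exp (Complex.I * a) := by
  unfold E
  rw [mul_zero, add_zero]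

theorem E_zero' (c : ℝ) : E 0 c 0 = 1 := by
  rw [E_zero]
  simp

theorem conj_exp (x : ℝ) : (starRingEnd ℂ) (Complex.exp (Complex.I * x)) =
    Complex.exp (Complex.I * ((-x : ℝ) : ℂ)) := by
  rw [← Complex.exp_conj]
  congr 1
  rw [map_mul, Complex.conj_I, Complex.conj_ofReal]
  push_cast
  ring

theorem E_cd (a c : ℝ) : ContDiff ℝ 2 (E a c) := by
  unfold E
  exact (contDiff_const.mul (Complex.ofRealCLM.contDiff.comp
    (by fun_prop : ContDiff ℝ 2 fun ε : ℝ => a + c * ε))).cexp

theorem E_hd (a c x : ℝ) : HasDerivAt (E a c) (Complex.I * c * E a c x) x := by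
  unfold E
  have h1 : HasDerivAt (fun ε : ℝ => ((a + c * ε : ℝ) : ℂ)) (c : ℂ) x := by
    have h2 : HasDerivAt (fun ε : ℝ => a + c * ε) c x := by
      simpa using ((hasDerivAt_id x).const_mul c).const_add a
    exact h2.ofReal_comp
  exact ((h1.const_mul Complex.I).cexp).congr_deriv (by ring)

/-- cosines -/
def cs (k c p K ε : ℝ) : ℝ := 2 * Real.cos (p * ε) - 2 * Real.cos (k + c * ε) + K

def cs1 (k c p ε : ℝ) : ℝ := -(2 * p * Real.sin (p * ε)) + 2 * c * Real.sin (k + c * ε)

theorem cs_cd (k c p K : ℝ) : ContDiff ℝ 2 (fun ε => ((cs k c p K ε : ℝ) : ℂ)) := by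
  unfold cs
  exact Complex.ofRealCLM.contDiff.comp (by fun_prop :
    ContDiff ℝ 2 fun ε : ℝ => 2 * Real.cos (p * ε) - 2 * Real.cos (k + c * ε) + K)

theorem lin_hd (c x : ℝ) : HasDerivAt (fun ε : ℝ => c * ε) c x := by
  simpa using (hasDerivAt_id x).const_mul c

theorem aff_hd (a c x : ℝ) : HasDerivAt (fun ε : ℝ => a + c * ε) c x := by
  simpa using (lin_hd c x).const_add a

theorem cs_hd (k c p K x : ℝ) :
    HasDerivAt (fun ε => ((cs k c p K ε : ℝ) : ℂ)) ((cs1 k c p x : ℝ) : ℂ) x := by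
  apply HasDerivAt.ofReal_comp
  unfold cs cs1
  have h1 := ((lin_hd p x).cos.const_mul 2).sub ((aff_hd k c x).cos.const_mul 2)
  exact (h1.add_const K).congr_deriv (by ring)

theorem cs1_hd (k c p : ℝ) :
    HasDerivAt (fun ε => ((cs1 k c p ε : ℝ) : ℂ))
      ((-(2 * p ^ 2) + 2 * c ^ 2 * Real.cos k : ℝ) : ℂ) 0 := by
  apply HasDerivAt.ofReal_comp
  unfold cs1
  have h1 := ((lin_hd p 0).sin.const_mul (2 * p)).neg.add ((aff_hd k c 0).sin.const_mul (2 * c))
  refine h1.congr_deriv ?_
  rw [mul_zero, mul_zero, add_zero, Real.cos_zero]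
  ring

/-! ### The matrix -/

def pp (L : ℕ) : ℝ := 1 / (2 * (L : ℝ) ^ 2)
def cn (L t : ℕ) : ℝ := ((t : ℝ) + 1 / 2) / (L : ℝ) ^ 2
def cd (L t : ℕ) : ℝ := ((t : ℝ) + 1) / (L : ℝ) ^ 2

/-- the matrix of the mode -/
def HH (L : ℕ) (k b ε : ℝ) : Matrix (Fin L ⊕ Fin (L - 1)) (Fin L ⊕ Fin (L - 1)) ℂ :=
  Matrix.fromBlocks
    (Matrix.of fun s t : Fin L =>
      if s = t then ((cs k (cn L t) (pp L)
        (b + (if 0 < (t : ℕ) then 1 else 0) + (if (t : ℕ) + 1 < L then 1 else 0)) ε : ℝ) : ℂ)
      else if (s : ℕ) = t + 1 ∨ (t : ℕ) = s + 1 then -1 else 0)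
    (Matrix.of fun (s : Fin L) (t : Fin (L - 1)) =>
      if (s : ℕ) = t + 1 then (1 - E 0 (pp L) ε) * (1 + E (-k) (-cn L s) ε)
      else if (s : ℕ) = t then (E 0 (-pp L) ε - 1) * (1 + E (-k) (-cn L s) ε) else 0)
    (Matrix.of fun (t : Fin (L - 1)) (s : Fin L) =>
      if (s : ℕ) = t + 1 then (1 - E 0 (-pp L) ε) * (1 + E k (cn L s) ε)
      else if (s : ℕ) = t then (E 0 (pp L) ε - 1) * (1 + E k (cn L s) ε) else 0)
    (Matrix.of fun s t : Fin (L - 1) =>
      if s = t then ((cs k (cd L t) (pp L) (b + 2) ε : ℝ) : ℂ)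
      else if (t : ℕ) = s + 1 then -E 0 (-pp L) ε
      else if (s : ℕ) = t + 1 then -E 0 (pp L) ε else 0)

theorem blk_eq {L : ℕ} (hL : 2 ≤ L) (k b ε : ℝ) :
    blk L ε (Complex.exp (Complex.I * k)) b = HH L k b ε := by
  have hL0 : (L : ℝ) ≠ 0 := by
    have : (0 : ℝ) < L := by exact_mod_cast (by omega : 0 < L)
    exact this.ne'
  have hw : ∀ t : ℕ, Complex.exp (Complex.I * (ε * t / (L : ℝ) ^ 2)) * Complex.exp (Complex.I * k) =
      Complex.exp (((k + ε * t / (L : ℝ) ^ 2 : ℝ) : ℂ) * Complex.I) := by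
    intro t
    rw [← Complex.exp_add]
    congr 1
    push_cast
    ring
  have hr1 : Complex.exp (Complex.I * (((ε / (L : ℝ) ^ 2 : ℝ) : ℂ) / 2)) = E 0 (pp L) ε := by
    unfold E pp
    congr 1
    push_cast
    ring
  have hr2 : Complex.exp (-(Complex.I * (((ε / (L : ℝ) ^ 2 : ℝ) : ℂ) / 2))) = E 0 (-pp L) ε := by
    unfold E pp
    congr 1
    push_cast
    ring
  have hv : ∀ s : ℕ, 1 + Complex.exp (-(Complex.I * (((ε / (L : ℝ) ^ 2 : ℝ) : ℂ) / 2))) *
      (starRingEnd ℂ) (Complex.exp (Complex.I * (ε * s / (L : ℝ) ^ 2)) *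
        Complex.exp (Complex.I * k)) = 1 + E (-k) (-cn L s) ε := by
    intro s
    rw [hw, mul_comm _ Complex.I, conj_exp, ← Complex.exp_add]
    unfold E cn
    congr 2
    push_cast
    ring
  have hc : ∀ a c : ℝ, (starRingEnd ℂ) (E a c ε) = E (-a) (-c) ε := by
    intro a c
    unfold E
    rw [conj_exp]
    congr 3
    ring
  unfold blk HH
  simp only
  rw [Matrix.fromBlocks_inj]
  refine ⟨?_, ?_, ?_, ?_⟩
  · ext s t
    rw [Matrix.of_apply, Matrix.of_apply]
    by_cases h : s = t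
    · rw [if_pos h, if_pos h]
      congr 1
      rw [hw, Complex.exp_ofReal_mul_I_re, Complex.exp_ofReal_mul_I_im]
      unfold cs
      have e1 : k + cn L t * ε = (k + ε * t / (L : ℝ) ^ 2) + ε / (L : ℝ) ^ 2 / 2 := by
        unfold cn
        ring
      have e2 : pp L * ε = ε / (L : ℝ) ^ 2 / 2 := by
        unfold pp
        ring
      rw [e1, e2, Real.cos_add (k + ε * t / (L : ℝ) ^ 2)]
      ring
    · rw [if_neg h, if_neg h]
  · ext s t
    rw [Matrix.of_apply, Matrix.of_apply, hv, hr1, hr2]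
  · ext t s
    rw [Matrix.of_apply, Matrix.of_apply, hv, hr1, hr2]
    split_ifs
    · rw [map_mul, map_sub, map_add, map_one, hc, hc, neg_zero, neg_neg, neg_neg]
    · rw [map_mul, map_sub, map_add, map_one, hc, hc, neg_zero, neg_neg, neg_neg, neg_neg]
    · rw [map_zero]
  · ext s t
    rw [Matrix.of_apply, Matrix.of_apply, hr1, hr2]
    by_cases h : s = t
    · rw [if_pos h, if_pos h]
      congr 1
      rw [hw, Complex.exp_ofReal_mul_I_re]
      unfold cs
      have e1 : k + cd L t * ε = k + ε * ((t + 1 : ℕ) : ℝ) / (L : ℝ) ^ 2 := by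
        unfold cd
        push_cast
        ring
      have e2 : pp L * ε = ε / (L : ℝ) ^ 2 / 2 := by
        unfold pp
        ring
      rw [e1, e2]
      ring
    · rw [if_neg h, if_neg h]

theorem HH_cd (L : ℕ) (k b : ℝ) (i j : Fin L ⊕ Fin (L - 1)) :
    ContDiff ℝ 2 (fun ε => HH L k b ε i j) := by
  unfold HH
  rcases i with s | s <;> rcases j with t | t
  · simp only [Matrix.fromBlocks_apply₁₁, Matrix.of_apply]
    by_cases h : s = t
    · simp only [if_pos h]
      exact cs_cd _ _ _ _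
    · simp only [if_neg h]
      exact contDiff_const
  · simp only [Matrix.fromBlocks_apply₁₂, Matrix.of_apply]
    split_ifs
    · exact (contDiff_const.sub (E_cd _ _)).mul (contDiff_const.add (E_cd _ _))
    · exact ((E_cd _ _).sub contDiff_const).mul (contDiff_const.add (E_cd _ _))
    · exact contDiff_const
  · simp only [Matrix.fromBlocks_apply₂₁, Matrix.of_apply]
    split_ifs
    · exact (contDiff_const.sub (E_cd _ _)).mul (contDiff_const.add (E_cd _ _))
    · exact ((E_cd _ _).sub contDiff_const).mul (contDiff_const.add (E_cd _ _))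
    · exact contDiff_const
  · simp only [Matrix.fromBlocks_apply₂₂, Matrix.of_apply]
    split_ifs
    · exact cs_cd _ _ _ _
    · exact (E_cd _ _).neg
    · exact (E_cd _ _).neg
    · exact contDiff_const

theorem det_cd (L : ℕ) (k b : ℝ) : ContDiff ℝ 2 (fun ε => det (HH L k b ε)) := by
  simp only [Matrix.det_apply']
  apply ContDiff.sum
  intro σ _
  exact contDiff_const.mul (contDiff_prod fun i _ => HH_cd L k b _ _)

/-! ### Derivatives -/

/-- first derivative -/
def H1 (L : ℕ) (k b ε : ℝ) : Matrix (Fin L ⊕ Fin (L - 1)) (Fin L ⊕ Fin (L - 1)) ℂ :=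
  Matrix.fromBlocks
    (Matrix.of fun s t : Fin L => if s = t then ((cs1 k (cn L t) (pp L) ε : ℝ) : ℂ) else 0)
    (Matrix.of fun (s : Fin L) (t : Fin (L - 1)) =>
      deriv (fun x => HH L k b x (Sum.inl s) (Sum.inr t)) ε)
    (Matrix.of fun (t : Fin (L - 1)) (s : Fin L) =>
      deriv (fun x => HH L k b x (Sum.inr t) (Sum.inl s)) ε)
    (Matrix.of fun s t : Fin (L - 1) =>
      if s = t then ((cs1 k (cd L t) (pp L) ε : ℝ) : ℂ)
      else if (t : ℕ) = s + 1 then Complex.I * pp L * E 0 (-pp L) ε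
      else if (s : ℕ) = t + 1 then -(Complex.I * pp L * E 0 (pp L) ε) else 0)

/-- second derivative at `0` -/
def H2 (L : ℕ) (k b : ℝ) : Matrix (Fin L ⊕ Fin (L - 1)) (Fin L ⊕ Fin (L - 1)) ℂ :=
  Matrix.fromBlocks
    (diagonal fun t : Fin L => ((-(2 * pp L ^ 2) + 2 * cn L t ^ 2 * Real.cos k : ℝ) : ℂ))
    (Matrix.of fun (s : Fin L) (t : Fin (L - 1)) =>
      deriv (deriv (fun x => HH L k b x (Sum.inl s) (Sum.inr t))) 0)
    (Matrix.of fun (t : Fin (L - 1)) (s : Fin L) =>
      deriv (deriv (fun x => HH L k b x (Sum.inr t) (Sum.inl s))) 0)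
    ((diagonal fun t : Fin (L - 1) => ((-(2 * pp L ^ 2) + 2 * cd L t ^ 2 * Real.cos k : ℝ) : ℂ)) +
      ((pp L : ℂ) ^ 2) • (UM (L - 1) + (UM (L - 1))ᵀ))

theorem HH_hd (L : ℕ) (k b x : ℝ) (i j : Fin L ⊕ Fin (L - 1)) :
    HasDerivAt (fun ε => HH L k b ε i j) (H1 L k b x i j) x := by
  have hd : ∀ i j, DifferentiableAt ℝ (fun ε => HH L k b ε i j) x := fun i j =>
    ((HH_cd L k b i j).differentiable (by norm_num)).differentiableAt
  rcases i with s | s <;> rcases j with t | t
  · unfold HH H1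
    simp only [Matrix.fromBlocks_apply₁₁, Matrix.of_apply]
    by_cases h : s = t
    · simp only [if_pos h]
      exact cs_hd _ _ _ _ _
    · simp only [if_neg h]
      exact hasDerivAt_const _ _
  · exact (hd (Sum.inl s) (Sum.inr t)).hasDerivAt
  · exact (hd (Sum.inr s) (Sum.inl t)).hasDerivAt
  · unfold HH H1
    simp only [Matrix.fromBlocks_apply₂₂, Matrix.of_apply]
    split_ifs
    · exact cs_hd _ _ _ _ _
    · exact (E_hd 0 (-pp L) x).neg.congr_deriv (by push_cast; ring)
    · exact (E_hd 0 (pp L) x).neg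
    · exact hasDerivAt_const _ _

theorem H1_hd (L : ℕ) (k b : ℝ) (i j : Fin L ⊕ Fin (L - 1)) :
    HasDerivAt (fun ε => H1 L k b ε i j) (H2 L k b i j) 0 := by
  have hd : ∀ i j, DifferentiableAt ℝ (deriv (fun ε => HH L k b ε i j)) 0 := fun i j =>
    ((HH_cd L k b i j).differentiable_deriv_two).differentiableAt
  rcases i with s | s <;> rcases j with t | t
  · unfold H1 H2
    simp only [Matrix.fromBlocks_apply₁₁, Matrix.of_apply]
    by_cases h : s = t
    · subst h
      rw [Matrix.diagonal_apply_eq]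
      simp only [if_true]
      exact cs1_hd _ _ _
    · rw [Matrix.diagonal_apply_ne _ h]
      simp only [if_neg h]
      exact hasDerivAt_const _ _
  · exact (hd (Sum.inl s) (Sum.inr t)).hasDerivAt
  · exact (hd (Sum.inr s) (Sum.inl t)).hasDerivAt
  · unfold H1 H2
    simp only [Matrix.fromBlocks_apply₂₂, Matrix.of_apply]
    rw [Matrix.add_apply, Matrix.smul_apply, Matrix.add_apply, Matrix.transpose_apply]
    unfold UM
    rw [Matrix.of_apply, Matrix.of_apply]
    by_cases h : s = t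
    · subst h
      rw [Matrix.diagonal_apply_eq]
      have h1 : ¬ (s : ℕ) = s + 1 := by omega
      simp only [if_true, if_neg h1, add_zero, smul_zero]
      exact cs1_hd _ _ _
    · rw [Matrix.diagonal_apply_ne _ h, zero_add]
      simp only [if_neg h]
      by_cases h1 : (t : ℕ) = s + 1
      · have h2 : ¬ (s : ℕ) = t + 1 := by omega
        simp only [if_pos h1, if_neg h2]
        refine ((E_hd 0 (-pp L) 0).const_mul (Complex.I * pp L)).congr_deriv ?_
        rw [E_zero']
        push_cast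
        simp only [smul_eq_mul, add_zero, mul_one]
        linear_combination (-(pp L : ℂ) ^ 2) * Complex.I_sq
      · by_cases h2 : (s : ℕ) = t + 1
        · simp only [if_pos h2, if_neg h1]
          refine ((E_hd 0 (pp L) 0).const_mul (Complex.I * pp L)).neg.congr_deriv ?_
          rw [E_zero']
          simp only [smul_eq_mul, zero_add, mul_one]
          linear_combination (-(pp L : ℂ) ^ 2) * Complex.I_sq
        · simp only [if_neg h2, if_neg h1, add_zero, smul_zero]
          exact hasDerivAt_const _ _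

/-- the first derivative at `0` -/
theorem H1_zero (L : ℕ) (k b : ℝ) : H1 L k b 0 = Matrix.fromBlocks
    (diagonal fun t : Fin L => ((2 * cn L t * Real.sin k : ℝ) : ℂ))
    ((-(Complex.I * pp L) * (1 + Complex.exp (Complex.I * ((-k : ℝ) : ℂ)))) • EM L)
    ((Complex.I * pp L * (1 + Complex.exp (Complex.I * k))) • (EM L)ᵀ)
    ((diagonal fun t : Fin (L - 1) => ((2 * cd L t * Real.sin k : ℝ) : ℂ)) +
      (Complex.I * pp L) • (UM (L - 1) - (UM (L - 1))ᵀ)) := by
  unfold H1
  rw [Matrix.fromBlocks_inj]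
  refine ⟨?_, ?_, ?_, ?_⟩
  · ext s t
    rw [Matrix.of_apply, Matrix.diagonal_apply]
    by_cases h : s = t
    · rw [if_pos h, if_pos h, h]
      congr 1
      unfold cs1
      simp
    · rw [if_neg h, if_neg h]
  · ext s t
    rw [Matrix.of_apply, Matrix.smul_apply]
    unfold EM HH
    simp only [Matrix.fromBlocks_apply₁₂, Matrix.of_apply]
    apply HasDerivAt.deriv
    have hv := (E_hd (-k) (-cn L s) 0).const_add 1
    by_cases h : (s : ℕ) = t + 1
    · simp only [if_pos h, if_pos (Or.inl h : (s : ℕ) = t + 1 ∨ (s : ℕ) = t)]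
      refine (((E_hd 0 (pp L) 0).const_sub 1).mul hv).congr_deriv ?_
      rw [E_zero', E_zero]
      simp only [smul_eq_mul]
      ring
    · by_cases h' : (s : ℕ) = t
      · simp only [if_neg h, if_pos h', if_pos (Or.inr h' : (s : ℕ) = t + 1 ∨ (s : ℕ) = t)]
        refine (((E_hd 0 (-pp L) 0).sub_const 1).mul hv).congr_deriv ?_
        rw [E_zero', E_zero]
        simp only [smul_eq_mul]
        push_cast
        ring
      · simp only [if_neg h, if_neg h', if_neg (fun hh => Or.elim hh h h' :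
          ¬ ((s : ℕ) = t + 1 ∨ (s : ℕ) = t)), smul_zero]
        exact hasDerivAt_const _ _
  · ext t s
    rw [Matrix.of_apply, Matrix.smul_apply, Matrix.transpose_apply]
    unfold EM HH
    simp only [Matrix.fromBlocks_apply₂₁, Matrix.of_apply]
    apply HasDerivAt.deriv
    have hv := (E_hd k (cn L s) 0).const_add 1
    by_cases h : (s : ℕ) = t + 1
    · simp only [if_pos h, if_pos (Or.inl h : (s : ℕ) = t + 1 ∨ (s : ℕ) = t)]
      refine (((E_hd 0 (-pp L) 0).const_sub 1).mul hv).congr_deriv ?_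
      rw [E_zero', E_zero]
      simp only [smul_eq_mul]
      push_cast
      ring
    · by_cases h' : (s : ℕ) = t
      · simp only [if_neg h, if_pos h', if_pos (Or.inr h' : (s : ℕ) = t + 1 ∨ (s : ℕ) = t)]
        refine (((E_hd 0 (pp L) 0).sub_const 1).mul hv).congr_deriv ?_
        rw [E_zero', E_zero]
        simp only [smul_eq_mul]
        ring
      · simp only [if_neg h, if_neg h', if_neg (fun hh => Or.elim hh h h' :
          ¬ ((s : ℕ) = t + 1 ∨ (s : ℕ) = t)), smul_zero]
        exact hasDerivAt_const _ _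
  · ext s t
    rw [Matrix.of_apply, Matrix.add_apply, Matrix.smul_apply, Matrix.sub_apply,
      Matrix.transpose_apply, Matrix.diagonal_apply]
    unfold UM
    rw [Matrix.of_apply, Matrix.of_apply, E_zero', E_zero']
    by_cases h : s = t
    · subst h
      have h1 : ¬ (s : ℕ) = s + 1 := by omega
      rw [if_pos rfl, if_pos rfl, if_neg h1]
      unfold cs1
      simp
    · rw [if_neg h, if_neg h]
      by_cases h1 : (t : ℕ) = s + 1
      · have h2 : ¬ (s : ℕ) = t + 1 := by omega
        rw [if_pos h1, if_pos h1, if_neg h2]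
        simp
      · by_cases h2 : (s : ℕ) = t + 1
        · rw [if_neg h1, if_pos h2, if_neg h1, if_pos h2]
          simp
        · rw [if_neg h1, if_neg h2, if_neg h1, if_neg h2]
          simp

end

end Pool.Agent.Y839.AF
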