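import Mathlib
import Pool.Agent.Y16.AF.StmA
import Pool.Agent.Y839.AF.BlkD

/-!
# Second logarithmic derivative of the determinant of a mode
-/

set_option autoImplicit false

namespace Pool.Agent.Y839.AF

open Matrix Finset
open Pool.Agent.Y16.AF

noncomputable section

theorem trace_fb {m n : Type} [Fintype m] [Fintype n] (A : Matrix m m ℂ) (B : Matrix m n ℂ)
    (C : Matrix n m ℂ) (D : Matrix n n ℂ) :
    trace (Matrix.fromBlocks A B C D) = trace A + trace D := by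
  simp [Matrix.trace]

theorem cs_zero (k c p K : ℝ) : cs k c p K 0 = 2 - 2 * Real.cos k + K := by
  unfold cs
  simp

theorem HH_zero {L : ℕ} {k b ω : ℝ} (hk : 2 * Real.cosh ω - 2 = 2 - 2 * Real.cos k + b) :
    HH L k b 0 = Matrix.fromBlocks
      (KK L fun t => ((2 * Real.cosh ω - 2 + (if 0 < t then 1 else 0) +
        (if t + 1 < L then 1 else 0) : ℝ) : ℂ)) 0 0
      (KK (L - 1) fun _ => ((2 * Real.cosh ω : ℝ) : ℂ)) := by
  unfold HH
  rw [Matrix.fromBlocks_inj]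
  refine ⟨?_, ?_, ?_, ?_⟩
  · ext s t
    unfold KK
    rw [Matrix.of_apply, Matrix.of_apply]
    by_cases h : s = t
    · rw [if_pos h, if_pos h, cs_zero]
      congr 1
      linarith
    · rw [if_neg h, if_neg h]
  · ext s t
    rw [Matrix.of_apply, E_zero', E_zero']
    split_ifs <;> simp
  · ext s t
    rw [Matrix.of_apply, E_zero', E_zero']
    split_ifs <;> simp
  · ext s t
    unfold KK
    rw [Matrix.of_apply, Matrix.of_apply, E_zero', E_zero']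
    by_cases h : s = t
    · rw [if_pos h, if_pos h, cs_zero]
      congr 1
      linarith
    · rw [if_neg h, if_neg h]
      split_ifs <;> first | rfl | omega

theorem KN_inv {L : ℕ} (hL : 1 ≤ L) {ω : ℝ} (hω : 0 < ω) :
    (KK L fun t => ((2 * Real.cosh ω - 2 + (if 0 < t then 1 else 0) +
        (if t + 1 < L then 1 else 0) : ℝ) : ℂ)) * MN L (fun t s => ((GN L ω t s : ℝ) : ℂ)) = 1 := by
  ext s t
  rw [Matrix.mul_apply, Matrix.one_apply]
  have h1 := tri_row L (fun t => ((2 * Real.cosh ω - 2 + (if 0 < t then 1 else 0) +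
        (if t + 1 < L then 1 else 0) : ℝ) : ℂ)) (fun u => ((GN L ω u t : ℝ) : ℂ)) s
  have h2 := GN_rec hω hL s.2 t.2
  have h3 : (((2 * Real.cosh ω - 2 + (if 0 < (s : ℕ) then 1 else 0) +
        (if (s : ℕ) + 1 < L then 1 else 0) : ℝ) : ℂ)) * ((GN L ω s t : ℝ) : ℂ) -
      (if 0 < (s : ℕ) then ((GN L ω (s - 1 : ℕ) t : ℝ) : ℂ) else 0) -
      (if (s : ℕ) + 1 < L then ((GN L ω (s + 1 : ℕ) t : ℝ) : ℂ) else 0) =
      ((if (s : ℕ) = t then 1 else 0 : ℝ) : ℂ) := by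
    rw [← h2]
    split_ifs <;> push_cast <;> ring
  refine (Eq.trans ?_ (h1.trans h3)).trans ?_
  · rfl
  · by_cases h : s = t
    · rw [if_pos h, if_pos (by rw [h])]
      norm_num
    · rw [if_neg h, if_neg (fun he => h (Fin.ext he))]
      norm_num

theorem KD_inv {L : ℕ} (hL : 1 ≤ L) {ω : ℝ} (hω : 0 < ω) :
    (KK (L - 1) fun _ => ((2 * Real.cosh ω : ℝ) : ℂ)) *
      MD (L - 1) (fun t s => ((GD L ω t s : ℝ) : ℂ)) = 1 := by
  ext s t
  rw [Matrix.mul_apply, Matrix.one_apply]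
  have h1 := tri_row (L - 1) (fun _ => ((2 * Real.cosh ω : ℝ) : ℂ))
    (fun u => ((GD L ω (u + 1) (t + 1) : ℝ) : ℂ)) s
  have h2 := GD_rec hω hL (s : ℕ) ((t : ℕ) + 1)
  have e1 : (if 0 < (s : ℕ) then ((GD L ω ((s : ℕ) - 1 + 1) ((t : ℕ) + 1) : ℝ) : ℂ) else 0) =
      ((GD L ω s ((t : ℕ) + 1) : ℝ) : ℂ) := by
    split_ifs with h
    · rw [Nat.sub_add_cancel h]
    · have h0 : (s : ℕ) = 0 := by omega
      rw [h0, GD_symm, GD_zero]
      norm_num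
  have e2 : (if (s : ℕ) + 1 < L - 1 then ((GD L ω ((s : ℕ) + 1 + 1) ((t : ℕ) + 1) : ℝ) : ℂ)
      else 0) = ((GD L ω ((s : ℕ) + 2) ((t : ℕ) + 1) : ℝ) : ℂ) := by
    split_ifs with h
    · rfl
    · have h0 : (s : ℕ) + 2 = L := by omega
      rw [h0, GD_symm, GD_last L ω (by omega)]
      norm_num
  have h3 : ((2 * Real.cosh ω : ℝ) : ℂ) * ((GD L ω ((s : ℕ) + 1) ((t : ℕ) + 1) : ℝ) : ℂ) -
      ((GD L ω s ((t : ℕ) + 1) : ℝ) : ℂ) - ((GD L ω ((s : ℕ) + 2) ((t : ℕ) + 1) : ℝ) : ℂ) =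
      ((if (s : ℕ) + 1 = (t : ℕ) + 1 then 1 else 0 : ℝ) : ℂ) := by
    rw [← h2]
    push_cast
    ring
  rw [e1, e2] at h1
  refine (Eq.trans ?_ (h1.trans h3)).trans ?_
  · rfl
  · by_cases h : s = t
    · rw [if_pos h, if_pos (by rw [h])]
      norm_num
    · rw [if_neg h, if_neg (fun he => h (Fin.ext (by omega)))]
      norm_num

/-- the real form of the trace formula -/
def RR (L : ℕ) (k ω : ℝ) : ℝ :=
  ((∑ t ∈ range L, GN L ω t t * (-(2 * pp L ^ 2) + 2 * cn L t ^ 2 * Real.cos k)) +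
    ((∑ t ∈ range (L - 1), GD L ω (t + 1) (t + 1) *
      (-(2 * pp L ^ 2) + 2 * cd L t ^ 2 * Real.cos k)) +
      pp L ^ 2 * (2 * Real.cosh ω * (∑ t ∈ range (L - 1), GD L ω (t + 1) (t + 1)) -
        ((L - 1 : ℕ) : ℝ)))) -
  ((∑ t ∈ range L, ∑ s ∈ range L, GN L ω t s * (2 * cn L s * Real.sin k) *
      (GN L ω s t * (2 * cn L t * Real.sin k))) +
    2 * (pp L ^ 2 * (2 + 2 * Real.cos k) * ∑ t ∈ range L, ∑ s ∈ range L,
      GN L ω t s * (GD L ω t s + GD L ω (t + 1) s + GD L ω t (s + 1) + GD L ω (t + 1) (s + 1))) +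
    ((∑ t ∈ range (L - 1), ∑ s ∈ range (L - 1), GD L ω (t + 1) (s + 1) *
        (2 * cd L s * Real.sin k) * (GD L ω (s + 1) (t + 1) * (2 * cd L t * Real.sin k))) +
      2 * pp L ^ 2 * ∑ t ∈ range (L - 1 - 1), ∑ s ∈ range (L - 1 - 1),
        (GD L ω (t + 2) (s + 2) * GD L ω (t + 1) (s + 1) -
          GD L ω (t + 1) (s + 2) * GD L ω (t + 2) (s + 1))))

theorem RR_eq {L : ℕ} (hL : 2 ≤ L) (k ω : ℝ) : RR L k ω = FF L k ω := by
  have hL0 : (L : ℝ) ≠ 0 := by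
    have : (0 : ℝ) < L := by exact_mod_cast (by omega : 0 < L)
    exact this.ne'
  obtain ⟨n, rfl⟩ : ∃ n, L = n + 1 + 1 := ⟨L - 2, by omega⟩
  obtain ⟨q, hq⟩ : ∃ q : ℝ, q = (((n + 1 + 1 : ℕ) : ℝ) ^ 2)⁻¹ := ⟨_, rfl⟩
  have hpp : pp (n + 1 + 1) = q / 2 := by
    unfold pp
    rw [hq]
    field_simp
  have hcn : ∀ t, cn (n + 1 + 1) t = ((t : ℝ) + 1 / 2) * q := by
    intro t
    unfold cn
    rw [hq]
    rfl
  have hcd : ∀ t, cd (n + 1 + 1) t = ((t : ℝ) + 1) * q := by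
    intro t
    unfold cd
    rw [hq]
    rfl
  have hq4 : ∀ x : ℝ, x / ((n + 1 + 1 : ℕ) : ℝ) ^ 4 = x * q ^ 2 := by
    intro x
    rw [hq]
    field_simp
  have e1 : n + 1 + 1 - 1 = n + 1 := by omega
  have e2 : n + 1 - 1 = n := by omega
  have e3 : n + 1 + 1 - 2 = n := by omega
  unfold RR FF FX FY FW
  rw [hq4, e1, e2, e3, hpp]
  simp only [hcn, hcd]
  -- sums over the Dirichlet points
  have s1 : ∑ t ∈ range (n + 1 + 1), GD (n + 1 + 1) ω t t * (2 * Real.cos k * (t : ℝ) ^ 2) =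
      ∑ t ∈ range (n + 1), GD (n + 1 + 1) ω (t + 1) (t + 1) * (2 * Real.cos k * ((t : ℝ) + 1) ^ 2) := by
    rw [Finset.sum_range_succ']
    simp
  have s2 : ∑ t ∈ range (n + 1 + 1), ∑ s ∈ range (n + 1 + 1),
      GD (n + 1 + 1) ω t s ^ 2 * ((t : ℝ) * s) =
      ∑ t ∈ range (n + 1), ∑ s ∈ range (n + 1),
        GD (n + 1 + 1) ω (t + 1) (s + 1) ^ 2 * (((t : ℝ) + 1) * ((s : ℝ) + 1)) := by
    rw [Finset.sum_range_succ']
    have : ∑ s ∈ range (n + 1 + 1), GD (n + 1 + 1) ω 0 s ^ 2 * (((0 : ℕ) : ℝ) * s) = 0 := by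
      apply Finset.sum_eq_zero
      intro s _
      simp
    rw [this, add_zero]
    apply Finset.sum_congr rfl
    intro t _
    rw [Finset.sum_range_succ']
    simp
  rw [s1, s2]
  have s3 : ∑ t ∈ range (n + 1), (1 - (2 * Real.cosh ω - 2) * GD (n + 1 + 1) ω (t + 1) (t + 1)) =
      ((n + 1 : ℕ) : ℝ) - (2 * Real.cosh ω - 2) *
        ∑ t ∈ range (n + 1), GD (n + 1 + 1) ω (t + 1) (t + 1) := by
    rw [Finset.sum_sub_distrib, Finset.sum_const, Finset.card_range, nsmul_eq_mul, mul_one,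
      Finset.mul_sum]
  rw [s3]
  have s4 : ∑ t ∈ range (n + 1 + 1), GN (n + 1 + 1) ω t t *
      (-(2 * (q / 2) ^ 2) + 2 * (((t : ℝ) + 1 / 2) * q) ^ 2 * Real.cos k) =
      q ^ 2 * (∑ t ∈ range (n + 1 + 1), GN (n + 1 + 1) ω t t *
        (2 * Real.cos k * ((t : ℝ) + 1 / 2) ^ 2)) -
      q ^ 2 / 2 * ∑ t ∈ range (n + 1 + 1), GN (n + 1 + 1) ω t t := by
    rw [Finset.mul_sum, Finset.mul_sum, ← Finset.sum_sub_distrib]
    apply Finset.sum_congr rfl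
    intro t _
    ring
  have s5 : ∑ t ∈ range (n + 1), GD (n + 1 + 1) ω (t + 1) (t + 1) *
      (-(2 * (q / 2) ^ 2) + 2 * (((t : ℝ) + 1) * q) ^ 2 * Real.cos k) =
      q ^ 2 * (∑ t ∈ range (n + 1), GD (n + 1 + 1) ω (t + 1) (t + 1) *
        (2 * Real.cos k * ((t : ℝ) + 1) ^ 2)) -
      q ^ 2 / 2 * ∑ t ∈ range (n + 1), GD (n + 1 + 1) ω (t + 1) (t + 1) := by
    rw [Finset.mul_sum, Finset.mul_sum, ← Finset.sum_sub_distrib]
    apply Finset.sum_congr rfl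
    intro t _
    ring
  have s6 : ∑ t ∈ range (n + 1 + 1), ∑ s ∈ range (n + 1 + 1), GN (n + 1 + 1) ω t s *
      (2 * (((s : ℝ) + 1 / 2) * q) * Real.sin k) *
        (GN (n + 1 + 1) ω s t * (2 * (((t : ℝ) + 1 / 2) * q) * Real.sin k)) =
      4 * Real.sin k ^ 2 * q ^ 2 * ∑ t ∈ range (n + 1 + 1), ∑ s ∈ range (n + 1 + 1),
        GN (n + 1 + 1) ω t s ^ 2 * (((t : ℝ) + 1 / 2) * ((s : ℝ) + 1 / 2)) := by
    rw [Finset.mul_sum]
    apply Finset.sum_congr rfl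
    intro t _
    rw [Finset.mul_sum]
    apply Finset.sum_congr rfl
    intro s _
    rw [GN_symm _ ω s t]
    ring
  have s7 : ∑ t ∈ range (n + 1), ∑ s ∈ range (n + 1), GD (n + 1 + 1) ω (t + 1) (s + 1) *
      (2 * (((s : ℝ) + 1) * q) * Real.sin k) *
        (GD (n + 1 + 1) ω (s + 1) (t + 1) * (2 * (((t : ℝ) + 1) * q) * Real.sin k)) =
      4 * Real.sin k ^ 2 * q ^ 2 * ∑ t ∈ range (n + 1), ∑ s ∈ range (n + 1),
        GD (n + 1 + 1) ω (t + 1) (s + 1) ^ 2 * (((t : ℝ) + 1) * ((s : ℝ) + 1)) := by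
    rw [Finset.mul_sum]
    apply Finset.sum_congr rfl
    intro t _
    rw [Finset.mul_sum]
    apply Finset.sum_congr rfl
    intro s _
    rw [GD_symm _ ω (s + 1) (t + 1)]
    ring
  rw [s4, s5, s6, s7]
  ring

theorem exp_prod (k : ℝ) : (1 + Complex.exp (Complex.I * ((-k : ℝ) : ℂ))) *
    (1 + Complex.exp (Complex.I * k)) = ((2 + 2 * Real.cos k : ℝ) : ℂ) := by
  have h1 : Complex.exp (Complex.I * ((-k : ℝ) : ℂ)) * Complex.exp (Complex.I * k) = 1 := by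
    rw [← Complex.exp_add]
    push_cast
    rw [mul_neg, neg_add_cancel, Complex.exp_zero]
  have h2 : Complex.exp (Complex.I * ((-k : ℝ) : ℂ)) + Complex.exp (Complex.I * k) =
      2 * Complex.cos k := by
    rw [Complex.two_cos]
    rw [add_comm]
    congr 2
    · ring
    · push_cast
      ring
  push_cast at h1 h2 ⊢
  linear_combination h1 + h2

theorem af_blk : S_LD2 → S_BLK := by
  rintro ⟨-, -, hLD⟩ L hL k b ω hb hω hk
  have hL1 : 1 ≤ L := by omega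
  simp only [blk_eq hL]
  obtain ⟨gN, hgN⟩ : ∃ gN : ℕ → ℕ → ℂ, gN = fun t s => ((GN L ω t s : ℝ) : ℂ) := ⟨_, rfl⟩
  obtain ⟨gD, hgD⟩ : ∃ gD : ℕ → ℕ → ℂ, gD = fun t s => ((GD L ω t s : ℝ) : ℂ) := ⟨_, rfl⟩
  have hKN := KN_inv hL1 hω
  have hKD := KD_inv hL1 hω
  rw [← hgN] at hKN
  rw [← hgD] at hKD
  obtain ⟨G, hG⟩ : ∃ G, G = Matrix.fromBlocks (MN L gN) 0 0 (MD (L - 1) gD) := ⟨_, rfl⟩
  have hHG : HH L k b 0 * G = 1 := by
    rw [HH_zero hk, hG, Matrix.fromBlocks_multiply]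
    simp only [Matrix.zero_mul, Matrix.mul_zero, add_zero, zero_add]
    rw [hKN, hKD, Matrix.fromBlocks_one]
  have hdet : det (HH L k b 0) ≠ 0 := by
    intro h0
    have h1 := congrArg det hHG
    rw [Matrix.det_mul, h0, zero_mul, Matrix.det_one] at h1
    exact zero_ne_one h1
  have hinv : (HH L k b 0)⁻¹ = G := Matrix.inv_eq_right_inv hHG
  refine ⟨det_cd L k b, hdet, ?_⟩
  have h1 := hLD (fun ε => HH L k b ε) (fun ε => H1 L k b ε) (H2 L k b)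
    (fun x i j => HH_hd L k b x i j) (fun i j => H1_hd L k b i j) hdet
  rw [h1]
  rw [hinv, H1_zero]
  -- properties of the Green functions
  have hD0 : ∀ s, gD s 0 = 0 := by
    intro s
    rw [hgD]
    simp only
    rw [GD_zero]
    norm_num
  have hDL : ∀ s ≤ L, gD s L = 0 := by
    intro s hs
    rw [hgD]
    simp only
    rw [GD_last L ω hs]
    norm_num
  have hDs : ∀ s t, gD s t = gD t s := by
    intro s t
    rw [hgD]
    simp only
    rw [GD_symm]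
  have hLL : L - 1 + 1 = L := by omega
  -- first trace
  have t1 : trace (G * H2 L k b) =
      (∑ t ∈ range L, gN t t * ((-(2 * pp L ^ 2) + 2 * cn L t ^ 2 * Real.cos k : ℝ) : ℂ)) +
      ((∑ t ∈ range (L - 1), gD (t + 1) (t + 1) *
        ((-(2 * pp L ^ 2) + 2 * cd L t ^ 2 * Real.cos k : ℝ) : ℂ)) +
      (pp L : ℂ) ^ 2 * (((2 * Real.cosh ω : ℝ) : ℂ) * (∑ t ∈ range (L - 1), gD (t + 1) (t + 1)) -
        ((L - 1 : ℕ) : ℂ))) := by
    rw [hG]
    unfold H2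
    rw [Matrix.fromBlocks_multiply, trace_fb]
    simp only [Matrix.zero_mul, add_zero, zero_add]
    rw [Matrix.mul_add, Matrix.trace_add, Matrix.mul_smul, Matrix.trace_smul,
      tr_adj (L - 1) gD ((2 * Real.cosh ω : ℝ) : ℂ) (_root_.mul_eq_one_comm.1 hKD),
      tr_diag L gN (fun t => ((-(2 * pp L ^ 2) + 2 * cn L t ^ 2 * Real.cos k : ℝ) : ℂ)), MD_eq,
      tr_diag (L - 1) (fun s t => gD (s + 1) (t + 1))
        (fun t => ((-(2 * pp L ^ 2) + 2 * cd L t ^ 2 * Real.cos k : ℝ) : ℂ)), smul_eq_mul]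
  -- second trace
  obtain ⟨β, hβ⟩ : ∃ β : ℂ, β = -(Complex.I * pp L) * (1 + Complex.exp (Complex.I * ((-k : ℝ) : ℂ))) :=
    ⟨_, rfl⟩
  obtain ⟨γ, hγ⟩ : ∃ γ : ℂ, γ = Complex.I * pp L * (1 + Complex.exp (Complex.I * k)) := ⟨_, rfl⟩
  have hβγ : β * γ = ((pp L ^ 2 * (2 + 2 * Real.cos k) : ℝ) : ℂ) := by
    rw [Complex.ofReal_mul, ← exp_prod, hβ, hγ]
    push_cast
    linear_combination (-(pp L : ℂ) ^ 2 * ((1 + Complex.exp (Complex.I * (-k : ℂ))) *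
      (1 + Complex.exp (Complex.I * k)))) * Complex.I_sq
  rw [← hβ, ← hγ]
  obtain ⟨A, hA⟩ : ∃ A : Matrix (Fin L) (Fin L) ℂ,
    A = diagonal fun t : Fin L => ((2 * cn L t * Real.sin k : ℝ) : ℂ) := ⟨_, rfl⟩
  obtain ⟨D, hD⟩ : ∃ D : Matrix (Fin (L - 1)) (Fin (L - 1)) ℂ,
    D = (diagonal fun t : Fin (L - 1) => ((2 * cd L t * Real.sin k : ℝ) : ℂ)) +
      (Complex.I * pp L) • (UM (L - 1) - (UM (L - 1))ᵀ) := ⟨_, rfl⟩
  rw [← hA, ← hD]
  have t2 : trace (G * Matrix.fromBlocks A (β • EM L) (γ • (EM L)ᵀ) D *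
      (G * Matrix.fromBlocks A (β • EM L) (γ • (EM L)ᵀ) D)) =
      trace (MN L gN * A * (MN L gN * A)) +
      2 * (β * γ * trace (MN L gN * EM L * (MD (L - 1) gD * (EM L)ᵀ))) +
      trace (MD (L - 1) gD * D * (MD (L - 1) gD * D)) := by
    rw [hG, Matrix.fromBlocks_multiply]
    simp only [Matrix.zero_mul, add_zero, zero_add]
    rw [Matrix.fromBlocks_multiply, trace_fb, Matrix.trace_add, Matrix.trace_add]
    have e1 : trace (MN L gN * (β • EM L) * (MD (L - 1) gD * (γ • (EM L)ᵀ))) =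
        β * γ * trace (MN L gN * EM L * (MD (L - 1) gD * (EM L)ᵀ)) := by
      rw [Matrix.mul_smul, Matrix.mul_smul, Matrix.smul_mul, Matrix.mul_smul, Matrix.trace_smul,
        Matrix.trace_smul, smul_eq_mul, smul_eq_mul, mul_assoc]
    rw [Matrix.trace_mul_comm (MD (L - 1) gD * (γ • (EM L)ᵀ)), e1]
    ring
  have t3 := tr_diag2 L gN (fun t => ((2 * cn L t * Real.sin k : ℝ) : ℂ))
  rw [← hA] at t3
  have t4 := tr_E hL (gN := gN) hD0 hDL hDs
  have t5 := tr_DD (n := L - 1) (g := gD) hD0 (by rw [hLL]; exact hDL) hDs (by omega)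
    (fun t => ((2 * cd L t * Real.sin k : ℝ) : ℂ)) (Complex.I * pp L)
  rw [← hD] at t5
  rw [t1, t2, t3, t4, t5, hβγ, ← RR_eq hL]
  unfold RR
  rw [hgN, hgD]
  have hI : (Complex.I * (pp L : ℂ)) ^ 2 = -((pp L : ℂ) ^ 2) := by
    rw [mul_pow, Complex.I_sq]
    ring
  rw [hI]
  push_cast
  ring

end

end Pool.Agent.Y839.AF
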